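import Pool.Agent.Lib.CoP.F.Flow

/-!
# CoP.F.Comm (modules F2, F3, size 220)

`IsFlow.comm`: `p = (t, x)`; all `(s, x)` with `|s| ≤ |t|` lie in the ball (sup norm). `v s = fderiv ℝ Fl (s, x) (0, Y x)`, `w s = Y (Fl (s, x))`. `w' = DY(Fl) X(Fl) = DX(Fl) w` by hypothesis.
`v' s = D²Fl (s,x) (1,0) (0, Y x) = D²Fl (s,x) (0, Y x) (1,0)` (symmetry of the second derivative, `ContDiffAt.isSymmSndFDerivAt` or `second_derivative_symmetric`) `= D(p ↦ DFl p (1,0)) (0, Y x) =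
D(X ∘ Fl) (0, Y x) = DX(Fl) v`. `v 0 = Y x = w 0` (`Fl (0, ·) = id`, so `D Fl (0,x) (0,h) = h`). `u = v - w`: `‖u' s‖ ≤ C ‖u s‖` on the compact interval, `u 0 = 0`, Gronwall
(`norm_le_gronwallBound_of_norm_deriv_right_le`; for `t < 0` reverse time) gives `u = 0`.

`IsFlow.inv`: `π` a continuous projection onto `W` (finite dimension: `Submodule.exists_isCompl`, `Submodule.linearProjOfIsCompl`), `u s = Fl (s,x) - π (Fl (s,x))`. Take `δ'` such that `Fl p` and `π (Fl p)` are in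
`ball 0 (r/2)` for `p ∈ ball 0 δ'` (continuity at `0`, `Fl 0 = 0`). `u' = X(Fl) - π X(Fl) = (X(Fl) - X(πFl)) - π (X(Fl) - X(πFl))` (since `X(πFl) ∈ W`), `‖u'‖ ≤ C ‖u‖`
(`X` is Lipschitz on `closedBall 0 (r/2)`), `u 0 = 0`; so `u = 0`.
-/

open Set Filter Metric MeasureTheory intervalIntegral
open scoped Topology ContDiff

noncomputable section

namespace CoP

variable {E : Type*} [NormedAddCommGroup E] [NormedSpace ℝ E] [FiniteDimensional ℝ E]

private theorem fc_at {F G : Type*} [NormedAddCommGroup F] [NormedSpace ℝ F]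
    [NormedAddCommGroup G] [NormedSpace ℝ G] {f : F → G} {r : ℝ}
    (hf : ContDiffOn ℝ ∞ f (ball 0 r)) {x : F} (hx : x ∈ ball (0 : F) r) : ContDiffAt ℝ ∞ f x :=
  (hf x hx).contDiffAt (isOpen_ball.mem_nhds hx)

omit [NormedSpace ℝ E] [FiniteDimensional ℝ E] in
private theorem fc_mem {δ s : ℝ} {x : E} (hs : |s| < δ) (hx : ‖x‖ < δ) :
    ((s, x) : ℝ × E) ∈ ball 0 δ := by
  rw [mem_ball_zero_iff, Prod.norm_mk, max_lt_iff]
  exact ⟨hs, hx⟩

omit [FiniteDimensional ℝ E] in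
private theorem fc_lip {A : ℝ → E →L[ℝ] E} {τ : ℝ} (hA : ContinuousOn A (Icc (-τ) τ)) :
    ∃ K : NNReal, ∀ s ∈ Ioo (-τ) τ, ∀ S : Set E, LipschitzOnWith K (A s) S := by
  obtain ⟨C, hC⟩ := isCompact_Icc.exists_bound_of_continuousOn hA
  refine ⟨C.toNNReal, fun s hs S => ?_⟩
  refine ((A s).lipschitz.weaken ?_).lipschitzOnWith
  rw [← NNReal.coe_le_coe, coe_nnnorm]
  exact (hC s (Ioo_subset_Icc_self hs)).trans (Real.le_coe_toNNReal C)

theorem IsFlow.comm {X Y : E → E} {r δ : ℝ} {Fl : ℝ × E → E} (h : IsFlow X r Fl δ)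
    (hX : ContDiffOn ℝ ∞ X (ball 0 r)) (hY : ContDiffOn ℝ ∞ Y (ball 0 r))
    (hXY : ∀ x ∈ ball (0 : E) r, fderiv ℝ Y x (X x) = fderiv ℝ X x (Y x)) :
    ∀ p ∈ ball (0 : ℝ × E) δ, fderiv ℝ Fl p (0, Y p.2) = Y (Fl p) := by
  rintro ⟨t, x⟩ hp
  rw [mem_ball_zero_iff, Prod.norm_mk, max_lt_iff] at hp
  obtain ⟨ht, hx⟩ := hp
  obtain ⟨τ, h1, h2⟩ := exists_between ht
  have hmem : ∀ s : ℝ, |s| < δ → ((s, x) : ℝ × E) ∈ ball 0 δ := fun s hs => fc_mem hs hx
  set A : ℝ → E →L[ℝ] E := fun s => fderiv ℝ X (Fl (s, x)) with hAdef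
  have hsm : ∀ q ∈ ball (0 : ℝ × E) δ, ContDiffAt ℝ ∞ Fl q := fun q hq => fc_at h.smooth hq
  have hd1 : ∀ s : ℝ, HasDerivAt (fun s : ℝ => (s, x)) ((1 : ℝ), (0 : E)) s := fun s =>
    (hasDerivAt_id s).prodMk (hasDerivAt_const s x)
  have hFd : ∀ q ∈ ball (0 : ℝ × E) δ, fderiv ℝ Fl q (1, 0) = X (Fl q) := by
    intro q hq
    have e1 : HasDerivAt (fun s : ℝ => (s, q.2)) ((1 : ℝ), (0 : E)) q.1 :=
      (hasDerivAt_id q.1).prodMk (hasDerivAt_const q.1 q.2)
    have e2 : HasFDerivAt Fl (fderiv ℝ Fl q) (q.1, q.2) :=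
      ((hsm q hq).differentiableAt (by simp)).hasFDerivAt
    exact (e2.comp_hasDerivAt q.1 e1).unique (h.deriv q hq)
  have hv' : ∀ s : ℝ, |s| < δ → HasDerivAt (fun s => fderiv ℝ Fl (s, x) (0, Y x))
      (A s (fderiv ℝ Fl (s, x) (0, Y x))) s := by
    intro s hs
    have hq := hmem s hs
    have e2 : HasFDerivAt (fderiv ℝ Fl) (fderiv ℝ (fderiv ℝ Fl) (s, x)) (s, x) :=
      (((hsm _ hq).fderiv_right (m := 1) (by
        norm_num
        exact WithTop.coe_le_coe.2 (le_top : (2 : ℕ∞) ≤ ⊤))).differentiableAt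
        (by simp)).hasFDerivAt
    have e3a : HasDerivAt (fun s => fderiv ℝ Fl (s, x))
        (fderiv ℝ (fderiv ℝ Fl) (s, x) (1, 0)) s := e2.comp_hasDerivAt s (hd1 s)
    have e3 : HasDerivAt (fun s => fderiv ℝ Fl (s, x) (0, Y x))
        (fderiv ℝ (fderiv ℝ Fl) (s, x) (1, 0) (0, Y x)) s :=
      (ContinuousLinearMap.apply ℝ E ((0 : ℝ), Y x)).hasFDerivAt.comp_hasDerivAt s e3a
    have e5 : HasFDerivAt (fun q => fderiv ℝ Fl q (1, 0))
        ((ContinuousLinearMap.apply ℝ E ((1 : ℝ), (0 : E))).comp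
          (fderiv ℝ (fderiv ℝ Fl) (s, x))) (s, x) :=
      (ContinuousLinearMap.apply ℝ E ((1 : ℝ), (0 : E))).hasFDerivAt.comp (s, x) e2
    have e7 : HasFDerivAt Fl (fderiv ℝ Fl (s, x)) (s, x) :=
      ((hsm _ hq).differentiableAt (by simp)).hasFDerivAt
    have e8 : HasFDerivAt X (A s) (Fl (s, x)) :=
      ((fc_at hX (h.maps _ hq)).differentiableAt (by simp)).hasFDerivAt
    have e9 : (fun q => fderiv ℝ Fl q (1, 0)) =ᶠ[𝓝 (s, x)] fun q => X (Fl q) := by
      filter_upwards [isOpen_ball.mem_nhds hq] with q hq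
      exact hFd q hq
    have e10 := (e8.comp (s, x) e7).congr_of_eventuallyEq e9
    have e11 := e5.unique e10
    have e12 := DFunLike.congr_fun e11 ((0 : ℝ), Y x)
    have e13 := (hsm _ hq).isSymmSndFDerivAt (by
      rw [minSmoothness_of_isRCLikeNormedField]
      exact WithTop.coe_le_coe.2 (le_top : (2 : ℕ∞) ≤ ⊤)) (1, 0) (0, Y x)
    refine e3.congr_deriv ?_
    rw [e13]
    exact e12
  have hw' : ∀ s : ℝ, |s| < δ → HasDerivAt (fun s => Y (Fl (s, x)))
      (A s (Y (Fl (s, x)))) s := by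
    intro s hs
    have hq := hmem s hs
    have e1 : HasFDerivAt Y (fderiv ℝ Y (Fl (s, x))) (Fl (s, x)) :=
      ((fc_at hY (h.maps _ hq)).differentiableAt (by simp)).hasFDerivAt
    have e2 := e1.comp_hasDerivAt s (h.deriv _ hq)
    rwa [hXY _ (h.maps _ hq)] at e2
  have hlt : ∀ s ∈ Icc (-τ) τ, |s| < δ := fun s hs => (abs_le.2 hs).trans_lt h2
  have hA : ContinuousOn A (Icc (-τ) τ) := by
    refine (hX.continuousOn_fderiv_of_isOpen isOpen_ball (by simp)).comp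
      (f := fun s => Fl (s, x)) (fun s hs => ?_) fun s hs => h.maps _ (hmem s (hlt s hs))
    exact (h.deriv _ (hmem s (hlt s hs))).continuousAt.continuousWithinAt
  obtain ⟨K, hK⟩ := fc_lip hA
  have h0 : fderiv ℝ Fl (0, x) (0, Y x) = Y (Fl (0, x)) := by
    have hq : ((0 : ℝ), x) ∈ ball (0 : ℝ × E) δ := hmem 0 (by rw [abs_zero]; exact h.pos)
    have e1 : HasFDerivAt Fl (fderiv ℝ Fl (0, x)) (0, x) :=
      ((hsm _ hq).differentiableAt (by simp)).hasFDerivAt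
    have e2 : HasFDerivAt (fun y : E => ((0 : ℝ), y)) (ContinuousLinearMap.inr ℝ ℝ E) x :=
      hasFDerivAt_prodMk_right 0 x
    have e3 := e1.comp x e2
    have e4 : (Fl ∘ fun y : E => ((0 : ℝ), y)) =ᶠ[𝓝 x] id := by
      have : x ∈ ball (0 : E) δ := mem_ball_zero_iff.2 hx
      filter_upwards [isOpen_ball.mem_nhds this] with y hy
      exact h.zero y hy
    have e5 := e3.unique ((hasFDerivAt_id x).congr_of_eventuallyEq e4)
    have e6 := DFunLike.congr_fun e5 (Y x)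
    rw [h.zero x (mem_ball_zero_iff.2 hx)]
    simpa using e6
  have key := ODE_solution_unique_of_mem_Ioo (v := fun s z => A s z) (s := fun _ => univ)
    (K := K) (a := -τ) (b := τ) (t₀ := 0) (fun s hs => hK s hs univ)
    (by
      have : 0 < τ := (abs_nonneg t).trans_lt h1
      exact ⟨by linarith, this⟩)
    (fun s hs => ⟨hv' s (hlt s (Ioo_subset_Icc_self hs)), mem_univ _⟩)
    (fun s hs => ⟨hw' s (hlt s (Ioo_subset_Icc_self hs)), mem_univ _⟩) h0
  exact key (abs_lt.1 h1)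

theorem IsFlow.inv {X : E → E} {r δ : ℝ} {Fl : ℝ × E → E} (h : IsFlow X r Fl δ) (hr : 0 < r)
    (hX : ContDiffOn ℝ ∞ X (ball 0 r)) (W : Submodule ℝ E)
    (hW : ∀ x ∈ W, x ∈ ball (0 : E) r → X x ∈ W) :
    ∃ δ' : ℝ, 0 < δ' ∧ δ' ≤ δ ∧ ∀ p ∈ ball (0 : ℝ × E) δ', p.2 ∈ W → Fl p ∈ W := by
  obtain ⟨g, hg⟩ := W.subtype.exists_leftInverse_of_injective (by simp)
  set π : E →L[ℝ] E := (W.subtype ∘ₗ g).toContinuousLinearMap with hπ
  have hπW : ∀ x, π x ∈ W := fun x => (g x).2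
  have hπid : ∀ x ∈ W, π x = x := by
    intro x hx
    have := LinearMap.congr_fun hg ⟨x, hx⟩
    exact congrArg Subtype.val this
  have h00 : Fl 0 = 0 := h.zero 0 (mem_ball_self h.pos)
  have hc0 : ContinuousAt Fl 0 := (fc_at h.smooth (mem_ball_self h.pos)).continuousAt
  have hr2 : 0 < r / 2 := by positivity
  have hn : ∀ᶠ p in 𝓝 (0 : ℝ × E), Fl p ∈ ball (0 : E) (r / 2) ∧ π (Fl p) ∈ ball (0 : E) (r / 2) := by
    refine (hc0.eventually ?_).and ((π.continuous.continuousAt.comp hc0).eventually ?_)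
    · rw [h00]
      exact ball_mem_nhds 0 hr2
    · rw [Function.comp, h00, map_zero]
      exact ball_mem_nhds 0 hr2
  obtain ⟨ε, hε, hball⟩ := Metric.eventually_nhds_iff_ball.1 hn
  refine ⟨min ε δ, lt_min hε h.pos, min_le_right _ _, ?_⟩
  rintro ⟨t, x⟩ hp hxW
  rw [mem_ball_zero_iff, Prod.norm_mk, max_lt_iff] at hp
  obtain ⟨ht, hx⟩ := hp
  set δ' := min ε δ with hδ'
  have hmem : ∀ s : ℝ, |s| < δ' → ((s, x) : ℝ × E) ∈ ball 0 δ' := fun s hs => fc_mem hs hx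
  have hm1 : ∀ s : ℝ, |s| < δ' → ((s, x) : ℝ × E) ∈ ball 0 δ := fun s hs =>
    ball_subset_ball (min_le_right _ _) (hmem s hs)
  have hm2 : ∀ s : ℝ, |s| < δ' → ((s, x) : ℝ × E) ∈ ball 0 ε := fun s hs =>
    ball_subset_ball (min_le_left _ _) (hmem s hs)
  have hsub : closedBall (0 : E) (r / 2) ⊆ ball 0 r := closedBall_subset_ball (by linarith)
  -- Lipschitz constant of X on the closed ball
  obtain ⟨C, hC⟩ := (isCompact_closedBall (0 : E) (r / 2)).exists_bound_of_continuousOn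
    ((hX.continuousOn_fderiv_of_isOpen isOpen_ball (by simp)).mono hsub)
  have hLip : LipschitzOnWith C.toNNReal X (closedBall (0 : E) (r / 2)) := by
    refine Convex.lipschitzOnWith_of_nnnorm_fderiv_le (𝕜 := ℝ) (fun y hy => ?_) (fun y hy => ?_)
      (convex_closedBall 0 (r / 2))
    · exact (fc_at hX (hsub hy)).differentiableAt (by simp)
    · rw [← NNReal.coe_le_coe, coe_nnnorm]
      exact (hC y hy).trans (Real.le_coe_toNNReal C)
  set ρ : E →L[ℝ] E := ContinuousLinearMap.id ℝ E - π with hρ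
  have hρa : ∀ y, ρ y = y - π y := fun y => rfl
  have hρW : ∀ y ∈ W, ρ y = 0 := fun y hy => by rw [hρa, hπid y hy, sub_self]
  have key := ODE_solution_unique_of_mem_Ioo
    (v := fun s z => ρ (X (π (Fl (s, x)) + z) - X (π (Fl (s, x)))))
    (s := fun s => {z | π (Fl (s, x)) + z ∈ closedBall (0 : E) (r / 2)})
    (K := ‖ρ‖₊ * (C.toNNReal * 1)) (a := -δ') (b := δ') (t₀ := 0)
    (f := fun s => ρ (Fl (s, x))) (g := fun _ => (0 : E))
    (fun s hs => by
      have e1 : LipschitzOnWith 1 (fun z => π (Fl (s, x)) + z)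
          {z | π (Fl (s, x)) + z ∈ closedBall (0 : E) (r / 2)} :=
        (isometry_add_left (π (Fl (s, x)))).lipschitz.lipschitzOnWith
      have e2 : LipschitzOnWith (C.toNNReal * 1) (fun z => X (π (Fl (s, x)) + z))
          {z | π (Fl (s, x)) + z ∈ closedBall (0 : E) (r / 2)} :=
        hLip.comp e1 fun z hz => hz
      have e3 : LipschitzOnWith (C.toNNReal * 1)
          (fun z => X (π (Fl (s, x)) + z) - X (π (Fl (s, x))))
          {z | π (Fl (s, x)) + z ∈ closedBall (0 : E) (r / 2)} := by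
        intro a ha b hb
        rw [edist_sub_right]
        exact e2 ha hb
      exact ρ.lipschitz.comp_lipschitzOnWith e3)
    (by
      have : 0 < δ' := lt_min hε h.pos
      exact ⟨by linarith, this⟩)
    (fun s hs => by
      have hs' : |s| < δ' := abs_lt.2 hs
      obtain ⟨b1, b2⟩ := hball _ (hm2 s hs')
      have e0 : π (Fl (s, x)) + ρ (Fl (s, x)) = Fl (s, x) := by rw [hρa]; abel
      refine ⟨?_, ?_⟩
      · have e1 := ρ.hasFDerivAt.comp_hasDerivAt s (h.deriv _ (hm1 s hs'))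
        refine e1.congr_deriv ?_
        have e2 : ρ (X (π (Fl (s, x)))) = 0 :=
          hρW _ (hW _ (hπW _) (hsub (ball_subset_closedBall b2)))
        show ρ (X (Fl (s, x))) = ρ (X (π (Fl (s, x)) + ρ (Fl (s, x))) - X (π (Fl (s, x))))
        rw [e0, map_sub, e2, sub_zero]
      · show π (Fl (s, x)) + ρ (Fl (s, x)) ∈ closedBall (0 : E) (r / 2)
        rw [e0]
        exact ball_subset_closedBall b1)
    (fun s hs => by
      have hs' : |s| < δ' := abs_lt.2 hs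
      obtain ⟨b1, b2⟩ := hball _ (hm2 s hs')
      refine ⟨?_, ?_⟩
      · have e2 : ρ (X (π (Fl (s, x)) + 0) - X (π (Fl (s, x)))) = 0 := by
          rw [add_zero, sub_self, map_zero]
        show HasDerivAt (fun _ => (0 : E)) (ρ (X (π (Fl (s, x)) + 0) - X (π (Fl (s, x))))) s
        rw [e2]
        exact hasDerivAt_const s 0
      · show π (Fl (s, x)) + 0 ∈ closedBall (0 : E) (r / 2)
        rw [add_zero]
        exact ball_subset_closedBall b2)
    (by
      show ρ (Fl (0, x)) = 0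
      rw [h.zero x (mem_ball_zero_iff.2 (hx.trans_le (min_le_right _ _)))]
      exact hρW x hxW)
  have hfin : ρ (Fl (t, x)) = 0 := key (abs_lt.1 ht)
  rw [hρa, sub_eq_zero] at hfin
  rw [hfin]
  exact hπW _

end CoP
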