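import Pool.Agent.Lib.CoP.F.Sup

/-!
# CoP.F.Flow (module F1, size 300): smooth local flows

`IsFlow X r Fl δ`: a smooth local flow of `X` near `0`.

Proof of `exists_flow`. Let `χ` be a smooth bump (`ContDiffBump (0:E)`), `= 1` on `closedBall 0 (r/3)`, support in `closedBall 0 (2r/3)`, `Xt = χ • X` smooth on all of `E`
(`ContDiffOn` on the open ball, zero near the complement). On `C = C([0,1], E)` let `J u s = ∫₀ˢ u` (a continuous linear map `C → C`: `LinearMap.mkContinuous`) and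
`c x` the constant function. `G : (ℝ × E) × C → (ℝ × E) × C`, `G ((ε, x), u) = ((ε, x), u - c x - ε • J (superpose Xt u))`: smooth
(`contDiff_superpose`), `G 0 = 0`, and `fderiv G 0` at `((0,0),0)` is `((ε,x),u) ↦ ((ε,x), u - c x - ε • J (superpose Xt 0))`, a linear
isomorphism with the evident inverse. Inverse function theorem (`ContDiffAt.toOpenPartialHomeomorph` / `HasStrictFDerivAt`): local inverse `G⁻¹`, and it is smooth in a
neighbourhood of `0`: `OpenPartialHomeomorph.contDiffAt_symm` at every point where `fderiv G` is invertible, which is an open condition (`ContinuousLinearEquiv.isOpen`).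
Put `u_{ε,x} = (G⁻¹ ((ε,x),0)).2`, `Fl (ε, x) = u_{ε,x} 1`: smooth near `0`. `u_{ε,x} s = x + ε ∫₀ˢ Xt (u)`. `u_{ε,x}(s) = Fl (s ε, x)` for `s ∈ [0,1]`: the curve
`s' ↦ u_{ε,x}(s s')` is a solution for `(sε, x)` close to `0`, and solutions near `0` are unique (injectivity of `G` near `0`). Hence for `t` near `0`:
`Fl (t, x) = x + ∫₀ᵗ Xt (Fl (τ, x)) dτ` (take `ε = t`, substitute), so `HasDerivAt` for `t ↦ Fl(t,x)`; `Fl(0,x) = x`; for small `δ` the values lie in `ball 0 (r/3)` where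
`Xt = X`. (Derivative at any `t` in the open interval, both sides: the formula holds on a whole interval of `t`, positive and negative.)
-/

open Set Filter Metric MeasureTheory intervalIntegral
open scoped Topology ContDiff

noncomputable section

namespace CoP

variable {E : Type*} [NormedAddCommGroup E] [NormedSpace ℝ E]

/-- `Fl` is a smooth local flow of the vector field `X` on the ball of radius `δ` of `ℝ × E`, with
values in the ball of radius `r`. -/
structure IsFlow (X : E → E) (r : ℝ) (Fl : ℝ × E → E) (δ : ℝ) : Prop where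
  pos : 0 < δ
  smooth : ContDiffOn ℝ ∞ Fl (ball 0 δ)
  zero : ∀ x ∈ ball (0 : E) δ, Fl (0, x) = x
  maps : ∀ p ∈ ball (0 : ℝ × E) δ, Fl p ∈ ball (0 : E) r
  deriv : ∀ p ∈ ball (0 : ℝ × E) δ, HasDerivAt (fun t => Fl (t, p.2)) (X (Fl p)) p.1

/-! ### the operators on `C([0,1], E)` -/

/-- the integral operator `u ↦ (s ↦ ∫₀ˢ u)` -/
private def flP (u : C(↥(Icc (0 : ℝ) 1), E)) : C(↥(Icc (0 : ℝ) 1), E) :=
  ⟨fun s => ∫ τ in (0 : ℝ)..s, IccExtend (zero_le_one (α := ℝ)) u τ,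
    (intervalIntegral.continuous_primitive
      (fun _ _ => (u.continuous.Icc_extend').intervalIntegrable _ _) 0).comp
      continuous_subtype_val⟩

private theorem flP_apply (u : C(↥(Icc (0 : ℝ) 1), E)) (s : ↥(Icc (0 : ℝ) 1)) :
    flP u s = ∫ τ in (0 : ℝ)..s, IccExtend (zero_le_one (α := ℝ)) u τ := rfl

private theorem flP_int (u : C(↥(Icc (0 : ℝ) 1), E)) (a b : ℝ) :
    IntervalIntegrable (IccExtend (zero_le_one (α := ℝ)) u) volume a b :=
  (u.continuous.Icc_extend').intervalIntegrable _ _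

private theorem flP_bound (u : C(↥(Icc (0 : ℝ) 1), E)) : ‖flP u‖ ≤ 1 * ‖u‖ := by
  rw [one_mul]
  refine (ContinuousMap.norm_le _ (norm_nonneg _)).2 fun s => ?_
  rw [flP_apply]
  have h := intervalIntegral.norm_integral_le_of_norm_le_const
    (a := (0 : ℝ)) (b := s) (f := IccExtend (zero_le_one (α := ℝ)) u) (C := ‖u‖)
    fun τ _ => by
      rw [IccExtend_apply]
      exact u.norm_coe_le_norm _
  refine h.trans ?_
  rw [sub_zero, abs_of_nonneg s.2.1]
  exact mul_le_of_le_one_right (norm_nonneg _) s.2.2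

private def flJ : C(↥(Icc (0 : ℝ) 1), E) →L[ℝ] C(↥(Icc (0 : ℝ) 1), E) :=
  LinearMap.mkContinuous
    { toFun := flP
      map_add' := fun u v => by
        ext s
        rw [ContinuousMap.add_apply, flP_apply, flP_apply, flP_apply,
          ← intervalIntegral.integral_add (flP_int u _ _) (flP_int v _ _)]
        rfl
      map_smul' := fun c u => by
        ext s
        rw [RingHom.id_apply, ContinuousMap.smul_apply, flP_apply, flP_apply,
          ← intervalIntegral.integral_smul]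
        rfl } 1 flP_bound

private theorem flJ_apply (u : C(↥(Icc (0 : ℝ) 1), E)) (s : ↥(Icc (0 : ℝ) 1)) :
    flJ u s = ∫ τ in (0 : ℝ)..s, IccExtend (zero_le_one (α := ℝ)) u τ := rfl

/-- constant functions -/
private def flC : E →L[ℝ] C(↥(Icc (0 : ℝ) 1), E) :=
  LinearMap.mkContinuous
    { toFun := fun x => ContinuousMap.const _ x
      map_add' := fun x y => by ext s; rfl
      map_smul' := fun c x => by ext s; rfl } 1 (fun x => by
        rw [one_mul]
        exact (ContinuousMap.norm_le _ (norm_nonneg _)).2 fun s => le_rfl)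

private theorem flC_apply (x : E) (s : ↥(Icc (0 : ℝ) 1)) : flC x s = x := rfl

/-- evaluation -/
private def flE (s : ↥(Icc (0 : ℝ) 1)) : C(↥(Icc (0 : ℝ) 1), E) →L[ℝ] E :=
  LinearMap.mkContinuous
    { toFun := fun u => u s
      map_add' := fun u v => rfl
      map_smul' := fun c u => rfl } 1 (fun u => by
        rw [one_mul]
        exact u.norm_coe_le_norm _)

private theorem flE_apply (s : ↥(Icc (0 : ℝ) 1)) (u : C(↥(Icc (0 : ℝ) 1), E)) :
    flE s u = u s := rfl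

/-- the fixed point map -/
private def flG (W : C(↥(Icc (0 : ℝ) 1), E) → C(↥(Icc (0 : ℝ) 1), E))
    (q : (ℝ × E) × C(↥(Icc (0 : ℝ) 1), E)) : (ℝ × E) × C(↥(Icc (0 : ℝ) 1), E) :=
  (q.1, q.2 - flC q.1.2 - q.1.1 • flJ (W q.2))

private theorem flG_smooth {W : C(↥(Icc (0 : ℝ) 1), E) → C(↥(Icc (0 : ℝ) 1), E)}
    (hW : ContDiff ℝ ∞ W) : ContDiff ℝ ∞ (flG W) := by
  unfold flG
  have h1 : ContDiff ℝ ∞ fun q : (ℝ × E) × C(↥(Icc (0 : ℝ) 1), E) => flC q.1.2 :=
    (flC (E := E)).contDiff.comp (contDiff_snd.comp contDiff_fst)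
  have h2 : ContDiff ℝ ∞ fun q : (ℝ × E) × C(↥(Icc (0 : ℝ) 1), E) => flJ (W q.2) :=
    flJ.contDiff.comp (hW.comp contDiff_snd)
  exact contDiff_fst.prodMk ((contDiff_snd.sub h1).sub
    ((contDiff_fst.comp contDiff_fst).smul h2))

/-- the derivative at the origin -/
private def flL (w : C(↥(Icc (0 : ℝ) 1), E)) :
    ((ℝ × E) × C(↥(Icc (0 : ℝ) 1), E)) ≃L[ℝ] ((ℝ × E) × C(↥(Icc (0 : ℝ) 1), E)) :=
  (ContinuousLinearEquiv.refl ℝ (ℝ × E)).skewProd (ContinuousLinearEquiv.refl ℝ _)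
    (-(flC.comp (ContinuousLinearMap.snd ℝ ℝ E)) -
      (ContinuousLinearMap.fst ℝ ℝ E).smulRight w)

private theorem flG_deriv {W : C(↥(Icc (0 : ℝ) 1), E) → C(↥(Icc (0 : ℝ) 1), E)}
    (hW : ContDiff ℝ ∞ W) :
    HasFDerivAt (flG W) (flL (flJ (W 0)) :
      ((ℝ × E) × C(↥(Icc (0 : ℝ) 1), E)) →L[ℝ] ((ℝ × E) × C(↥(Icc (0 : ℝ) 1), E))) 0 := by
  have hW0 : HasFDerivAt W (fderiv ℝ W 0) (0 : (ℝ × E) × C(↥(Icc (0 : ℝ) 1), E)).2 :=
    (hW.differentiable (by simp)).differentiableAt.hasFDerivAt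
  have h1 : HasFDerivAt (fun q : (ℝ × E) × C(↥(Icc (0 : ℝ) 1), E) => flC q.1.2)
      ((flC.comp (ContinuousLinearMap.snd ℝ ℝ E)).comp (ContinuousLinearMap.fst ℝ _ _)) 0 :=
    (flC (E := E)).hasFDerivAt.comp _ ((ContinuousLinearMap.snd ℝ ℝ E).hasFDerivAt.comp _
      hasFDerivAt_fst)
  have h2 : HasFDerivAt (fun q : (ℝ × E) × C(↥(Icc (0 : ℝ) 1), E) => flJ (W q.2))
      (flJ.comp ((fderiv ℝ W 0).comp (ContinuousLinearMap.snd ℝ _ _))) 0 :=
    (flJ (E := E)).hasFDerivAt.comp _ (hW0.comp _ hasFDerivAt_snd)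
  have h3 : HasFDerivAt (fun q : (ℝ × E) × C(↥(Icc (0 : ℝ) 1), E) => q.1.1)
      ((ContinuousLinearMap.fst ℝ ℝ E).comp (ContinuousLinearMap.fst ℝ _ _)) 0 :=
    (ContinuousLinearMap.fst ℝ ℝ E).hasFDerivAt.comp _ hasFDerivAt_fst
  have h4 := (hasFDerivAt_fst (𝕜 := ℝ) (E := ℝ × E) (F := C(↥(Icc (0 : ℝ) 1), E))
    (p := 0)).prodMk ((hasFDerivAt_snd.sub h1).sub (h3.smul h2))
  refine HasFDerivAt.congr_fderiv (f := flG W) h4 ?_
  refine ContinuousLinearMap.ext fun q => ?_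
  refine Prod.ext rfl ?_
  show q.2 - flC q.1.2 - ((0 : ℝ) • flJ (fderiv ℝ W 0 q.2) + q.1.1 • flJ (W 0)) =
    q.2 + (-(flC q.1.2) - q.1.1 • flJ (W 0))
  rw [zero_smul, zero_add]
  abel

/-- a smooth extension -/
private theorem fl_ext [FiniteDimensional ℝ E] {X : E → E} {r : ℝ} (hr : 0 < r)
    (hX : ContDiffOn ℝ ∞ X (ball 0 r)) :
    ∃ Xt : E → E, ContDiff ℝ ∞ Xt ∧ ∀ x ∈ ball (0 : E) (r / 3), Xt x = X x := by
  let χ : ContDiffBump (0 : E) := ⟨r / 3, 2 * r / 3, by linarith, by linarith⟩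
  refine ⟨fun x => χ x • X x, ?_, fun x hx => ?_⟩
  · rw [contDiff_iff_contDiffAt]
    intro x
    by_cases hx : x ∈ ball (0 : E) r
    · exact χ.contDiff.contDiffAt.smul (hX.contDiffAt (isOpen_ball.mem_nhds hx))
    · have h0 : (fun x => χ x • X x) =ᶠ[𝓝 x] fun _ => (0 : E) := by
        have hx' : x ∈ (closedBall (0 : E) (2 * r / 3))ᶜ := by
          rw [mem_compl_iff, mem_closedBall, not_le]
          rw [mem_ball, not_lt] at hx
          linarith
        filter_upwards [isClosed_closedBall.isOpen_compl.mem_nhds hx'] with y hy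
        rw [mem_compl_iff, mem_closedBall, not_le] at hy
        rw [χ.zero_of_le_dist hy.le, zero_smul]
      exact contDiffAt_const.congr_of_eventuallyEq h0
  · show χ x • X x = X x
    rw [χ.one_of_mem_closedBall (ball_subset_closedBall hx), one_smul]

/-- rescaled functions -/
private def flS (s : ↥(Icc (0 : ℝ) 1)) (u : C(↥(Icc (0 : ℝ) 1), E)) :
    C(↥(Icc (0 : ℝ) 1), E) :=
  ⟨fun s' => u (s * s'), u.continuous.comp (continuous_const.mul continuous_id)⟩

private theorem flS_apply (s s' : ↥(Icc (0 : ℝ) 1)) (u : C(↥(Icc (0 : ℝ) 1), E)) :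
    flS s u s' = u (s * s') := rfl

private theorem flS_norm (s : ↥(Icc (0 : ℝ) 1)) (u : C(↥(Icc (0 : ℝ) 1), E)) :
    ‖flS s u‖ ≤ ‖u‖ :=
  (ContinuousMap.norm_le _ (norm_nonneg _)).2 fun _ => u.norm_coe_le_norm _

private theorem flS_eq {Xt : E → E} (hXt : Continuous Xt) {u : C(↥(Icc (0 : ℝ) 1), E)} {x : E}
    {t : ℝ} (hu : u = flC x + t • flJ (superpose Xt hXt u)) (s : ↥(Icc (0 : ℝ) 1)) :
    flS s u = flC x + ((s : ℝ) * t) • flJ (superpose Xt hXt (flS s u)) := by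
  ext s'
  have h1 : u (s * s') = x + t • ∫ τ in (0 : ℝ)..((s : ℝ) * (s' : ℝ)),
      IccExtend (zero_le_one (α := ℝ)) (superpose Xt hXt u) τ := by
    conv_lhs => rw [hu]
    rfl
  rw [flS_apply, h1]
  show _ = x + ((s : ℝ) * t) • ∫ τ in (0 : ℝ)..(s' : ℝ),
      IccExtend (zero_le_one (α := ℝ)) (superpose Xt hXt (flS s u)) τ
  congr 1
  rw [mul_comm (s : ℝ) t, mul_smul]
  congr 1
  have h2 := intervalIntegral.smul_integral_comp_mul_left (a := 0) (b := (s' : ℝ))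
    (IccExtend (zero_le_one (α := ℝ)) (superpose Xt hXt u)) (s : ℝ)
  rw [mul_zero] at h2
  rw [← h2]
  congr 1
  refine intervalIntegral.integral_congr fun τ hτ => ?_
  rw [uIcc_of_le s'.2.1] at hτ
  have hτ1 : τ ∈ Icc (0 : ℝ) 1 := ⟨hτ.1, hτ.2.trans s'.2.2⟩
  have hτ2 : (s : ℝ) * τ ∈ Icc (0 : ℝ) 1 :=
    ⟨mul_nonneg s.2.1 hτ1.1, mul_le_one₀ s.2.2 hτ1.1 hτ1.2⟩
  show IccExtend (zero_le_one (α := ℝ)) (superpose Xt hXt u) ((s : ℝ) * τ) =
    IccExtend (zero_le_one (α := ℝ)) (superpose Xt hXt (flS s u)) τ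
  rw [IccExtend_of_mem _ _ hτ1, IccExtend_of_mem _ _ hτ2]
  rfl

theorem exists_flow [FiniteDimensional ℝ E] {X : E → E} {r : ℝ} (hr : 0 < r)
    (hX : ContDiffOn ℝ ∞ X (ball 0 r)) : ∃ (Fl : ℝ × E → E) (δ : ℝ), IsFlow X r Fl δ := by
  haveI : CompleteSpace E := FiniteDimensional.complete ℝ E
  obtain ⟨Xt, hXt, hXX⟩ := fl_ext hr hX
  set W : C(↥(Icc (0 : ℝ) 1), E) → C(↥(Icc (0 : ℝ) 1), E) := superpose Xt hXt.continuous with hWdef
  have hW : ContDiff ℝ ∞ W := contDiff_superpose hXt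
  have hG := flG_smooth hW
  have hD := flG_deriv hW
  have hG0 : flG W 0 = 0 := by
    refine Prod.ext rfl ?_
    show (0 : C(↥(Icc (0 : ℝ) 1), E)) - flC (0 : E) - (0 : ℝ) • flJ (W 0) = 0
    rw [map_zero, zero_smul, sub_zero, sub_zero]
  set e := hG.contDiffAt.toOpenPartialHomeomorph (flG W) hD (by simp) with he
  have hecoe : (e : _ → _) = flG W := rfl
  have h0s : (0 : (ℝ × E) × C(↥(Icc (0 : ℝ) 1), E)) ∈ e.source :=
    hG.contDiffAt.mem_toOpenPartialHomeomorph_source hD (by simp)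
  have h0t : (0 : (ℝ × E) × C(↥(Icc (0 : ℝ) 1), E)) ∈ e.target := by
    have h := e.map_source h0s
    rwa [hecoe, hG0] at h
  have he0 : e.symm 0 = 0 := by
    have h := e.left_inv h0s
    rwa [hecoe, hG0] at h
  -- the open set where the derivative is invertible
  set U : Set ((ℝ × E) × C(↥(Icc (0 : ℝ) 1), E)) :=
    (fderiv ℝ (flG W)) ⁻¹' (range ((↑) :
      (((ℝ × E) × C(↥(Icc (0 : ℝ) 1), E)) ≃L[ℝ] ((ℝ × E) × C(↥(Icc (0 : ℝ) 1), E))) →
      (((ℝ × E) × C(↥(Icc (0 : ℝ) 1), E)) →L[ℝ] ((ℝ × E) × C(↥(Icc (0 : ℝ) 1), E))))) with hU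
  have hUo : IsOpen U := ContinuousLinearEquiv.isOpen.preimage (hG.continuous_fderiv (by simp))
  have h0U : (0 : (ℝ × E) × C(↥(Icc (0 : ℝ) 1), E)) ∈ U := by
    refine ⟨flL (flJ (W 0)), ?_⟩
    exact hD.fderiv.symm
  obtain ⟨ρ₀, hρ₀, hρ₀s⟩ := Metric.isOpen_iff.1 (e.open_source.inter hUo) 0 ⟨h0s, h0U⟩
  set ρ : ℝ := min ρ₀ (r / 3) with hρdef
  have hρ : 0 < ρ := lt_min hρ₀ (by linarith)
  have hρs : ball (0 : (ℝ × E) × C(↥(Icc (0 : ℝ) 1), E)) ρ ⊆ e.source ∩ U :=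
    (ball_subset_ball (min_le_left _ _)).trans hρ₀s
  -- the inverse is defined and small near the origin
  have hι : Continuous fun p : ℝ × E => (p, (0 : C(↥(Icc (0 : ℝ) 1), E))) := by fun_prop
  have hev : ∀ᶠ p : ℝ × E in 𝓝 0, (p, (0 : C(↥(Icc (0 : ℝ) 1), E))) ∈ e.target ∧
      e.symm (p, 0) ∈ ball (0 : (ℝ × E) × C(↥(Icc (0 : ℝ) 1), E)) ρ := by
    have h1 : ∀ᶠ b in 𝓝 (0 : (ℝ × E) × C(↥(Icc (0 : ℝ) 1), E)), b ∈ e.target ∧
        e.symm b ∈ ball (0 : (ℝ × E) × C(↥(Icc (0 : ℝ) 1), E)) ρ := by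
      refine Filter.Eventually.and (e.open_target.mem_nhds h0t) ?_
      have h2 := e.continuousAt_symm h0t
      unfold ContinuousAt at h2
      rw [he0] at h2
      exact h2 (ball_mem_nhds _ hρ)
    exact (hι.tendsto 0).eventually h1
  obtain ⟨δ₀, hδ₀, hδ₀s⟩ := Metric.eventually_nhds_iff_ball.1 hev
  set δ : ℝ := min δ₀ ρ with hδdef
  have hδ : 0 < δ := lt_min hδ₀ hρ
  set H : ℝ × E → C(↥(Icc (0 : ℝ) 1), E) := fun p => (e.symm (p, 0)).2 with hHdef
  have ht : ∀ p ∈ ball (0 : ℝ × E) δ, (p, (0 : C(↥(Icc (0 : ℝ) 1), E))) ∈ e.target :=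
    fun p hp => (hδ₀s p (ball_subset_ball (min_le_left _ _) hp)).1
  have hs : ∀ p ∈ ball (0 : ℝ × E) δ, e.symm (p, 0) ∈
      ball (0 : (ℝ × E) × C(↥(Icc (0 : ℝ) 1), E)) ρ :=
    fun p hp => (hδ₀s p (ball_subset_ball (min_le_left _ _) hp)).2
  have hb : ∀ p ∈ ball (0 : ℝ × E) δ, H p = flC p.2 + p.1 • flJ (W (H p)) := by
    intro p hp
    have h1 := e.right_inv (ht p hp)
    rw [hecoe] at h1
    have h2 : (e.symm (p, 0)).1 = p := congrArg Prod.fst h1
    have h3 : (e.symm (p, 0)).2 - flC (e.symm (p, 0)).1.2 -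
        (e.symm (p, 0)).1.1 • flJ (W (e.symm (p, 0)).2) = 0 := congrArg Prod.snd h1
    rw [h2, sub_sub, sub_eq_zero] at h3
    exact h3
  have hHn : ∀ p ∈ ball (0 : ℝ × E) δ, ‖H p‖ < ρ := by
    intro p hp
    have h1 := hs p hp
    rw [mem_ball_zero_iff] at h1
    exact (norm_snd_le _).trans_lt h1
  have huniq : ∀ p ∈ ball (0 : ℝ × E) δ, ∀ u : C(↥(Icc (0 : ℝ) 1), E), ‖u‖ < ρ →
      u = flC p.2 + p.1 • flJ (W u) → H p = u := by
    intro p hp u hu hpu
    have h1 : (p, u) ∈ ball (0 : (ℝ × E) × C(↥(Icc (0 : ℝ) 1), E)) ρ := by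
      rw [mem_ball_zero_iff, Prod.norm_mk]
      refine max_lt ?_ hu
      rw [mem_ball_zero_iff] at hp
      exact hp.trans_le (min_le_right _ _)
    have h2 := e.left_inv (hρs h1).1
    have h3 : e (p, u) = (p, 0) := by
      rw [hecoe]
      refine Prod.ext rfl ?_
      show u - flC p.2 - p.1 • flJ (W u) = 0
      rw [sub_sub, sub_eq_zero]
      exact hpu
    rw [h3] at h2
    show (e.symm (p, 0)).2 = u
    rw [h2]
  have hsm : ∀ p ∈ ball (0 : ℝ × E) δ, ContDiffAt ℝ ∞ H p := by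
    intro p hp
    obtain ⟨f', hf'⟩ := (hρs (hs p hp)).2
    have h1 : HasFDerivAt e (f' : _ →L[ℝ] _) (e.symm (p, 0)) := by
      rw [hecoe, hf']
      exact (hG.differentiable (by simp)).differentiableAt.hasFDerivAt
    have h2 : ContDiffAt ℝ ∞ e.symm (p, 0) :=
      e.contDiffAt_symm (ht p hp) h1 hG.contDiffAt
    have h3 : ContDiffAt ℝ ∞ (fun p : ℝ × E => (p, (0 : C(↥(Icc (0 : ℝ) 1), E)))) p :=
      contDiffAt_id.prodMk contDiffAt_const
    exact contDiffAt_snd.comp p (h2.comp p h3)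
  -- the flow
  set Fl : ℝ × E → E := fun p => H p 1 with hFl
  have hFls : ∀ p ∈ ball (0 : ℝ × E) δ, ContDiffAt ℝ ∞ Fl p := fun p hp =>
    (flE (E := E) 1).contDiff.contDiffAt.comp p (hsm p hp)
  have hscale : ∀ (t : ℝ) (x : E), (t, x) ∈ ball (0 : ℝ × E) δ → ∀ s : ↥(Icc (0 : ℝ) 1),
      ((s : ℝ) * t, x) ∈ ball (0 : ℝ × E) δ ∧ Fl ((s : ℝ) * t, x) = H (t, x) s := by
    intro t x hp s
    have h1 : ((s : ℝ) * t, x) ∈ ball (0 : ℝ × E) δ := by
      rw [mem_ball_zero_iff, Prod.norm_mk] at hp ⊢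
      refine lt_of_le_of_lt (max_le_max ?_ le_rfl) hp
      rw [norm_mul, Real.norm_of_nonneg s.2.1]
      exact mul_le_of_le_one_left (norm_nonneg _) s.2.2
    refine ⟨h1, ?_⟩
    have h2 := huniq _ h1 (flS s (H (t, x))) ((flS_norm _ _).trans_lt (hHn _ hp))
      (flS_eq hXt.continuous (hb _ hp) s)
    show H ((s : ℝ) * t, x) 1 = _
    rw [h2, flS_apply, mul_one]
  have hint : ∀ (t : ℝ) (x : E), (t, x) ∈ ball (0 : ℝ × E) δ →
      Fl (t, x) = x + ∫ τ in (0 : ℝ)..t, Xt (Fl (τ, x)) := by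
    intro t x hp
    have h1 : Fl (t, x) = x + t • ∫ τ in (0 : ℝ)..1,
        IccExtend (zero_le_one (α := ℝ)) (W (H (t, x))) τ := by
      show H (t, x) 1 = _
      conv_lhs => rw [hb _ hp]
      rfl
    rw [h1]
    congr 1
    have h2 := intervalIntegral.smul_integral_comp_mul_right (a := 0) (b := 1)
      (fun τ => Xt (Fl (τ, x))) t
    rw [zero_mul, one_mul] at h2
    rw [← h2]
    congr 1
    refine intervalIntegral.integral_congr fun τ hτ => ?_
    rw [uIcc_of_le zero_le_one] at hτ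
    show IccExtend (zero_le_one (α := ℝ)) (W (H (t, x))) τ = Xt (Fl (τ * t, x))
    rw [IccExtend_of_mem _ _ hτ, (hscale t x hp ⟨τ, hτ⟩).2]
    rfl
  refine ⟨Fl, δ, hδ, fun p hp => (hFls p hp).contDiffWithinAt, ?_, ?_, ?_⟩
  · intro x hx
    have h1 : ((0 : ℝ), x) ∈ ball (0 : ℝ × E) δ := by
      rw [mem_ball_zero_iff] at hx ⊢
      rw [Prod.norm_mk, norm_zero]
      exact max_lt hδ hx
    rw [hint _ _ h1, intervalIntegral.integral_same, add_zero]
  · intro p hp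
    rw [mem_ball_zero_iff]
    refine (ContinuousMap.norm_coe_le_norm _ _).trans_lt ((hHn p hp).trans_le ?_)
    exact (min_le_right _ _).trans (by linarith)
  · rintro ⟨t, x⟩ hp
    have hlt : ‖Fl (t, x)‖ < r / 3 :=
      (ContinuousMap.norm_coe_le_norm _ _).trans_lt ((hHn _ hp).trans_le (min_le_right _ _))
    rw [← hXX _ (by rw [mem_ball_zero_iff]; exact hlt)]
    -- the interval
    have hIoo : ∀ τ ∈ Ioo (-δ) δ, (τ, x) ∈ ball (0 : ℝ × E) δ := by
      intro τ hτ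
      rw [mem_ball_zero_iff, Prod.norm_mk] at hp ⊢
      refine max_lt ?_ ((le_max_right _ _).trans_lt hp)
      rw [Real.norm_eq_abs, abs_lt]
      exact hτ
    have htI : t ∈ Ioo (-δ) δ := by
      rw [mem_ball_zero_iff, Prod.norm_mk] at hp
      have h1 := (le_max_left _ _).trans_lt hp
      rw [Real.norm_eq_abs, abs_lt] at h1
      exact h1
    have hcont : ContinuousOn (fun τ => Xt (Fl (τ, x))) (Ioo (-δ) δ) := by
      intro τ hτ
      have h1 : ContinuousAt Fl (τ, x) := (hFls _ (hIoo τ hτ)).continuousAt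
      have h2 : ContinuousAt (fun τ : ℝ => (τ, x)) τ := by fun_prop
      exact (hXt.continuous.continuousAt.comp
        (ContinuousAt.comp (f := fun τ : ℝ => (τ, x)) h1 h2)).continuousWithinAt
    have h1 : HasDerivAt (fun t => ∫ τ in (0 : ℝ)..t, Xt (Fl (τ, x))) (Xt (Fl (t, x))) t := by
      refine intervalIntegral.integral_hasDerivAt_right ?_ ?_ ?_
      · refine (hcont.mono fun τ hτ => ?_).intervalIntegrable
        exact ordConnected_Ioo.uIcc_subset ⟨by linarith, hδ⟩ htI hτ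
      · exact hcont.stronglyMeasurableAtFilter isOpen_Ioo t htI
      · exact hcont.continuousAt (isOpen_Ioo.mem_nhds htI)
    have h2 : HasDerivAt (fun t => x + ∫ τ in (0 : ℝ)..t, Xt (Fl (τ, x))) (Xt (Fl (t, x))) t :=
      h1.const_add x
    refine h2.congr_of_eventuallyEq ?_
    filter_upwards [isOpen_Ioo.mem_nhds htI] with τ hτ
    exact hint τ x (hIoo τ hτ)

theorem IsFlow.mono {X : E → E} {r δ δ' : ℝ} {Fl : ℝ × E → E} (h : IsFlow X r Fl δ)
    (h0 : 0 < δ') (hle : δ' ≤ δ) : IsFlow X r Fl δ' where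
  pos := h0
  smooth := h.smooth.mono (ball_subset_ball hle)
  zero x hx := h.zero x (ball_subset_ball hle hx)
  maps p hp := h.maps p (ball_subset_ball hle hp)
  deriv p hp := h.deriv p (ball_subset_ball hle hp)

end CoP
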