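import Mathlib

/-!
# CoP.F.Sup (size 160): superposition operators are smooth

`superpose X hX u = X ∘ u` on `C([0,1], E)`. Show by induction on `n : ℕ` (for all `F`): `X` `C^n` ⇒ `superpose` `C^n`.
* `n = 0`: continuity for the sup norm = compact-open topology (`ContinuousMap.continuous_postcomp`).
* step: `HasFDerivAt` at `u` with derivative `v ↦ (s ↦ fderiv ℝ X (u s) (v s))`, i.e. the bounded bilinear map (pointwise application)
  `C([0,1], E →L F) × C([0,1], E) → C([0,1], F)` (build it with `LinearMap.mkContinuous₂`, bound 1) applied to `superpose (fderiv ℝ X) u`. Estimate: for `‖v‖ ≤ δ`,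
  `‖X(u s + v s) - X(u s) - DX(u s)(v s)‖ ≤ sup_{θ} ‖DX(u s + θ v s) - DX(u s)‖ ‖v s‖ ≤ ε ‖v s‖` by the mean value inequality
  (`Convex.norm_image_sub_le_of_norm_hasFDerivWithin_le'` on the segment) and the continuity of `superpose (fderiv ℝ X)` at `u` (the constant-in-`s` shift is covered by
  `w = u + θ v` for constants `θ`: for each fixed `θ`, `‖superpose DX (u + θ v) - superpose DX u‖ ≤ ε` when `‖θ v‖ ≤ δ`).
  Then `contDiff_succ_iff_fderiv` (or `contDiff_succ_iff_hasFDerivAt`).
-/

open Set Filter Metric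
open scoped Topology ContDiff

noncomputable section

namespace CoP

variable {E F : Type*} [NormedAddCommGroup E] [NormedSpace ℝ E] [NormedAddCommGroup F]
  [NormedSpace ℝ F]

/-- The superposition operator. -/
def superpose (X : E → F) (hX : Continuous X) (u : C(↥(Icc (0 : ℝ) 1), E)) :
    C(↥(Icc (0 : ℝ) 1), F) := ⟨fun s => X (u s), hX.comp u.continuous⟩

omit [NormedSpace ℝ E] [NormedSpace ℝ F] in
private theorem sup_continuous (X : E → F) (hX : Continuous X) : Continuous (superpose X hX) :=
  ContinuousMap.continuous_postcomp (⟨X, hX⟩ : C(E, F))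

/-- pointwise application -/
private def sup_app : C(↥(Icc (0 : ℝ) 1), E →L[ℝ] F) →L[ℝ]
    C(↥(Icc (0 : ℝ) 1), E) →L[ℝ] C(↥(Icc (0 : ℝ) 1), F) :=
  LinearMap.mkContinuous₂
    (LinearMap.mk₂ ℝ (fun (A : C(↥(Icc (0 : ℝ) 1), E →L[ℝ] F)) (v : C(↥(Icc (0 : ℝ) 1), E)) =>
      (⟨fun s => A s (v s), A.continuous.clm_apply v.continuous⟩ : C(↥(Icc (0 : ℝ) 1), F)))
      (fun A B v => by ext s; simp) (fun c A v => by ext s; simp)
      (fun A v w => by ext s; simp) (fun c A v => by ext s; simp)) 1 (fun A v => by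
        rw [one_mul, ContinuousMap.norm_le _ (by positivity)]
        intro s
        refine ((A s).le_opNorm (v s)).trans ?_
        exact mul_le_mul (A.norm_coe_le_norm s) (v.norm_coe_le_norm s) (norm_nonneg _)
          ((norm_nonneg (A s)).trans (A.norm_coe_le_norm s)))

private theorem sup_app_apply (A : C(↥(Icc (0 : ℝ) 1), E →L[ℝ] F)) (v : C(↥(Icc (0 : ℝ) 1), E))
    (s : ↥(Icc (0 : ℝ) 1)) : sup_app A v s = A s (v s) := rfl

private theorem sup_hasFDerivAt {X : E → F} (hX : ContDiff ℝ 1 X)
    (hX' : Continuous (fderiv ℝ X)) (u : C(↥(Icc (0 : ℝ) 1), E)) :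
    HasFDerivAt (superpose X hX.continuous) (sup_app (superpose (fderiv ℝ X) hX' u)) u := by
  rw [hasFDerivAt_iff_isLittleO, Asymptotics.isLittleO_iff]
  intro ε hε
  obtain ⟨δ, hδ, hb⟩ := Metric.continuousAt_iff.1
    (sup_continuous (fderiv ℝ X) hX').continuousAt ε hε
  filter_upwards [Metric.ball_mem_nhds u hδ] with w hw
  rw [ContinuousMap.norm_le _ (by positivity)]
  intro s
  have h1 : ‖X (w s) - X (u s) - fderiv ℝ X (u s) (w s - u s)‖ ≤ ε * ‖w s - u s‖ := by
    refine Convex.norm_image_sub_le_of_norm_fderiv_le' (𝕜 := ℝ) (s := segment ℝ (u s) (w s))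
      (fun y _ => (hX.differentiable one_ne_zero) y) ?_ (convex_segment _ _)
      (left_mem_segment ℝ _ _) (right_mem_segment ℝ _ _)
    intro y hy
    rw [segment_eq_image'] at hy
    obtain ⟨θ, hθ, rfl⟩ := hy
    have h2 : dist (u + θ • (w - u)) u < δ := by
      rw [dist_eq_norm, add_sub_cancel_left, norm_smul, Real.norm_of_nonneg hθ.1]
      have h3 : ‖w - u‖ < δ := by rwa [← dist_eq_norm]
      nlinarith [norm_nonneg (w - u), hθ.2]
    have h4 := (hb h2).le
    rw [dist_eq_norm] at h4
    exact (ContinuousMap.norm_coe_le_norm _ s).trans h4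
  refine h1.trans ?_
  exact mul_le_mul_of_nonneg_left (ContinuousMap.norm_coe_le_norm (w - u) s) hε.le

universe uE uF

private theorem sup_nat {E : Type uE} [NormedAddCommGroup E] [NormedSpace ℝ E] (n : ℕ) :
    ∀ (F : Type (max uE uF)) [NormedAddCommGroup F] [NormedSpace ℝ F] (X : E → F)
      (hX : ContDiff ℝ n X), ContDiff ℝ n (superpose X hX.continuous) := by
  induction n with
  | zero =>
    intro F _ _ X hX
    have h := sup_continuous X hX.continuous
    simpa [contDiff_zero] using h
  | succ n ih =>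
    intro F _ _ X hX
    have hX1 : ContDiff ℝ 1 X := hX.of_le (by
      push_cast
      exact le_add_self)
    have hX2 : ContDiff ℝ n (fderiv ℝ X) := by
      have h := hX
      push_cast at h
      exact (contDiff_succ_iff_fderiv.1 h).2.2
    have hd : ∀ u, HasFDerivAt (superpose X hX.continuous)
        (sup_app (superpose (fderiv ℝ X) hX2.continuous u)) u :=
      fun u => sup_hasFDerivAt hX1 hX2.continuous u
    push_cast
    rw [contDiff_succ_iff_fderiv]
    refine ⟨fun u => (hd u).differentiableAt, fun h => absurd h (by simp), ?_⟩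
    have h2 : fderiv ℝ (superpose X hX.continuous) =
        fun u => sup_app (superpose (fderiv ℝ X) hX2.continuous u) :=
      funext fun u => (hd u).fderiv
    rw [h2]
    have h3 : ContDiff ℝ n (superpose (fderiv ℝ X) hX2.continuous) :=
      ih (E →L[ℝ] F) (fderiv ℝ X) hX2
    have h4 : ContDiff ℝ n (fun A : C(↥(Icc (0 : ℝ) 1), E →L[ℝ] F) =>
        sup_app (E := E) (F := F) A) := ContinuousLinearMap.contDiff _
    exact h4.comp h3

private theorem sup_final {E : Type uE} [NormedAddCommGroup E] [NormedSpace ℝ E]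
    {F : Type uF} [NormedAddCommGroup F] [NormedSpace ℝ F] {X : E → F} (hX : ContDiff ℝ ∞ X) :
    ContDiff ℝ ∞ (superpose X hX.continuous) := by
  rw [contDiff_infty]
  intro n
  have hXn : ContDiff ℝ n X := hX.of_le (by exact_mod_cast le_top)
  let e : ULift.{uE, uF} F ≃ₗᵢ[ℝ] F := LinearIsometryEquiv.ulift ℝ F
  have hX' : ContDiff ℝ n (fun x => e.symm (X x)) :=
    e.symm.toContinuousLinearEquiv.contDiff.comp hXn
  have h1 := sup_nat.{uE, uF} n (ULift.{uE, uF} F) (fun x => e.symm (X x)) hX'
  have h3 : ContDiff ℝ n (fun u : C(↥(Icc (0 : ℝ) 1), ULift.{uE, uF} F) =>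
      (e.toContinuousLinearEquiv : ULift.{uE, uF} F →L[ℝ] F).compLeftContinuous ℝ
        ↥(Icc (0 : ℝ) 1) u) :=
    ContinuousLinearMap.contDiff _
  have h2 : superpose X hX.continuous = fun u =>
      (e.toContinuousLinearEquiv : ULift.{uE, uF} F →L[ℝ] F).compLeftContinuous ℝ
        ↥(Icc (0 : ℝ) 1) (superpose (fun x => e.symm (X x)) hX'.continuous u) := by
    funext u
    ext s
    exact (e.apply_symm_apply (X (u s))).symm
  rw [h2]
  exact h3.comp h1

theorem contDiff_superpose {X : E → F} (hX : ContDiff ℝ ∞ X) :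
    ContDiff ℝ ∞ (superpose X hX.continuous) :=
  sup_final hX

end CoP
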